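import Pool.Agent.K3h74.GL.Main
import Pool.Agent.K3h74.GL.LC
import Pool.Agent.K3h74.GL.KER
import Pool.Agent.K3h64.GL.Dbl
import Pool.Agent.K3h64.GL.B2
import Pool.Agent.K3h41.GL.WEAK
import Pool.Agent.K3h41.GL.STR
import Pool.Agent.K3h41.GL.MAX
import Pool.Agent.K3h27.GL.POI
import Pool.Agent.K3h27.GL.A2
import Pool.Agent.K3h33.GL.Bell
import Pool.Agent.K3h56.GL.GREEN
import Pool.Agent.K3h65.GL.APER
import Pool.Agent.K3h74.GL.AREA
import Pool.Agent.K3h60.GL.RDF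
import Pool.Agent.K3h60.GL.W2
import Pool.Agent.K3h6.GL.NEC

/-!
# The weights for the weighted `g_λ^*` inequality (MP_842e08_an)

Let `1 < λ ≤ 2` and `2/λ < p < 2`.  We prove that the inequality
`∫ (g_λ^*(f))^p U ≤ C ∫ |f|^p U` holds if and only if `U ∈ A_p ∩ B_{λp/2}`.  This answers the
question completely: the necessary condition of the problem is sufficient.

Proof.

* `B_r` is an open condition: `U ∈ B_r` implies `U ∈ B_q` for some `q < r` (comparison of the kernels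
  at the scales `h` and `2h`).  In particular `U(tI) ≤ C t^q U(I)` with some `q < λp/2`.
* `(g_λ^*)²` is at most a constant times the sum of `2^{-kλ} A_{2^k}²`, where `A_a` is the area
  function of aperture `a`, and `∫ A_a^p U ≤ C a^q ∫ A_1^p U` for `p < 2` (a real variable argument
  with the maximal function with respect to the measure `U dx`).  As `q < λp/2` the sum converges.
* `∫ A_1^p U ≤ C ∫ |f|^p U` for `U ∈ A_p`: by the maximal theorem (Muckenhoupt, with Lerner's proof)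
  and the algorithm of Rubio de Francia this follows from the case `p = 2`, `U ∈ A_2`, which is proved
  with an explicit Bellman function: if `F`, `f`, `W`, `V` are the Poisson integrals of `|f|²w`, `f`,
  `w`, `1/w` and `WV ≤ Q`, then `b = Q (F - f²/V) + 6 Q³ (F - f²/(2V - 1/(W²V)))` satisfies
  `0 ≤ b ≤ (Q + 6 Q³) F` and `-Δb ≥ W |∇f|²`.
* Necessity: functions supported in an interval `I`, whose Poisson integral has a large gradient in
  a square beside `I`.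
-/

set_option autoImplicit false

open MeasureTheory Set
open scoped ENNReal NNReal

namespace Pool.Agent.Results.MP_842e08_an.Characterization

/-- The interval with centre `c` and length `h`. -/
def J (c h : ℝ) : Set ℝ := Icc (c - h / 2) (c + h / 2)

/-- The condition `B_r`: for every interval `I` with centre `c` and length `h > 0`,
`∫ h^{r-1} U(x) / (h^r + |x - c|^r) dx ≤ (C / h) ∫_I U`. -/
def B (r : ℝ) (U : ℝ → ℝ) : Prop :=
  ∃ C : ℝ≥0, ∀ c h : ℝ, 0 < h →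
    ∫⁻ x, ENNReal.ofReal (h ^ (r - 1) * U x / (h ^ r + |x - c| ^ r)) ≤
      (C : ℝ≥0∞) / ENNReal.ofReal h * ∫⁻ x in J c h, ENNReal.ofReal (U x)

/-- The Muckenhoupt condition `A_p`: `(avg_I U) (avg_I U^(-1/(p-1)))^(p-1) ≤ C` for every
interval `I` (with centre `c` and length `h > 0`). -/
def A (p : ℝ) (U : ℝ → ℝ) : Prop :=
  ∃ C : ℝ≥0, ∀ c h : ℝ, 0 < h →
    ((∫⁻ x in J c h, ENNReal.ofReal (U x)) / ENNReal.ofReal h) *
      ((∫⁻ x in J c h, ENNReal.ofReal (U x) ^ (-(1 / (p - 1)))) / ENNReal.ofReal h) ^ (p - 1) ≤ C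

/-- The Poisson integral `f(z,y)` of `f`. -/
noncomputable def poissonIntegral (f : ℝ → ℝ) (z y : ℝ) : ℝ :=
  (1 / Real.pi) * ∫ x, y * f (z - x) / (x ^ 2 + y ^ 2)

/-- `|∇f(z,y)|²`, the square of the length of the gradient of the Poisson integral in `(z,y)`. -/
noncomputable def gradSq (f : ℝ → ℝ) (z y : ℝ) : ℝ :=
  deriv (fun s => poissonIntegral f s y) z ^ 2 + deriv (fun s => poissonIntegral f z s) y ^ 2

/-- The function `g_λ^*`. -/
noncomputable def gstar (l : ℝ) (f : ℝ → ℝ) (x : ℝ) : ℝ≥0∞ :=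
  (∫⁻ z, ∫⁻ y in Ioi (0 : ℝ), ENNReal.ofReal ((y / (|x - z| + y)) ^ l * gradSq f z y)) ^
    (1 / 2 : ℝ)

/-- The inequality `(∗)`: `∫ (g_λ^*(f))^p U ≤ C ∫ |f|^p U` for all measurable real functions `f` with
finite right side. -/
def Star (l p : ℝ) (U : ℝ → ℝ) : Prop :=
  ∃ C : ℝ≥0, ∀ f : ℝ → ℝ, Measurable f → ∫⁻ x, ENNReal.ofReal (|f x| ^ p * U x) ≠ ∞ →
    ∫⁻ x, gstar l f x ^ p * ENNReal.ofReal (U x) ≤
      C * ∫⁻ x, ENNReal.ofReal (|f x| ^ p * U x)

/-- **The characterization.** Let `1 < λ ≤ 2`, `2/λ < p < 2` and `U` a weight on the line.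

(1) `(∗)` holds if and only if `U ∈ A_p` and `U ∈ B_{λp/2}`.

(2) `(∗)` holds if and only if `U ∈ A_p` and `U ∈ B_q` for some `q` with `1 < q < λp/2`.

(3) If `(∗)` holds and `U` is not zero almost everywhere, then for all `f` with `∫ |f|^p U < ∞` the
function `f(t)/(1+t²)` is integrable, so that the Poisson integrals in `(∗)` converge. -/
theorem result (l p : ℝ) (hl1 : 1 < l) (hl2 : l ≤ 2) (hp1 : 2 / l < p) (hp2 : p < 2) (U : ℝ → ℝ)
    (hU0 : ∀ x, 0 ≤ U x) (hU : LocallyIntegrable U volume) :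
    (Star l p U ↔ A p U ∧ B (l * p / 2) U) ∧
    (Star l p U ↔ A p U ∧ ∃ q, 1 < q ∧ q < l * p / 2 ∧ B q U) ∧
    (Star l p U → ¬ (∀ᵐ x, U x = 0) → ∀ f : ℝ → ℝ, Measurable f →
      ∫⁻ x, ENNReal.ofReal (|f x| ^ p * U x) ≠ ∞ → Integrable (fun t => f t / (1 + t ^ 2))) := by
  have hMMX := Pool.Agent.K3h41.GL.t_MMX
  have hWEAK := Pool.Agent.K3h41.GL.t_WEAK
  have hLC := Pool.Agent.K3h74.GL.t_LC
  have hSTR := Pool.Agent.K3h41.GL.t_STR hLC hMMX hWEAK
  have hDBL := Pool.Agent.K3h64.GL.t_DBL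
  have hDUAL := Pool.Agent.K3h64.GL.t_DUAL
  have hMAX := Pool.Agent.K3h41.GL.t_MAX hDBL hDUAL hMMX hSTR
  have hRDF := Pool.Agent.K3h60.GL.t_RDF hMMX hMAX
  have hW2 := Pool.Agent.K3h60.GL.t_W2
  have hB2 := Pool.Agent.K3h64.GL.t_B2 hMAX
  have hPOI := Pool.Agent.K3h27.GL.t_POI
  have hA2 := Pool.Agent.K3h27.GL.t_A2 hPOI Pool.Agent.K3h33.GL.t_BELL
    Pool.Agent.K3h56.GL.t_GREEN
  have hAPER := Pool.Agent.K3h65.GL.t_APER hLC hMMX hWEAK
  have hAREA := Pool.Agent.K3h74.GL.Area.t_AREA hPOI hB2 hW2 hRDF hA2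
  have hNEC := Pool.Agent.K3h6.GL.t_NEC hPOI
  exact Pool.Agent.K3h74.GL.main hPOI hAREA hAPER Pool.Agent.K3h74.GL.t_KER hNEC l p hl1 hl2 hp1
    hp2 U hU0 hU

end Pool.Agent.Results.MP_842e08_an.Characterization
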